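import Pool.Agent.helper35.OT.Spec

/-!
# Row EO of project OT: even and odd parts
-/

set_option autoImplicit false

namespace Pool.Agent.helper35.OT

open Finset

/-- The series with the coefficients of index `2 n + l`. -/
noncomputable def EO_U (l : ℕ) (f : PowerSeries ℚ) : PowerSeries ℚ :=
  PowerSeries.mk fun n => PowerSeries.coeff (2 * n + l) f

/-- The polynomial with the coefficients of index `2 n + l`. -/
noncomputable def EO_sec (l : ℕ) (q : Polynomial ℚ) : Polynomial ℚ :=
  ∑ n ∈ range (q.natDegree + 1), Polynomial.monomial n (q.coeff (2 * n + l))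

theorem EO_sec_coeff (l : ℕ) (q : Polynomial ℚ) (n : ℕ) :
    (EO_sec l q).coeff n = q.coeff (2 * n + l) := by
  unfold EO_sec
  rw [Polynomial.finsetSum_coeff]
  simp only [Polynomial.coeff_monomial]
  rw [Finset.sum_ite_eq' (range (q.natDegree + 1)) n]
  split_ifs with h
  · rfl
  · rw [Finset.mem_range] at h
    exact (Polynomial.coeff_eq_zero_of_natDegree_lt (by omega)).symm

theorem EO_U_coe (l : ℕ) (q : Polynomial ℚ) :
    EO_U l (q : PowerSeries ℚ) = (EO_sec l q : PowerSeries ℚ) := by
  ext n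
  rw [EO_U, PowerSeries.coeff_mk, Polynomial.coeff_coe, Polynomial.coeff_coe, EO_sec_coeff]

theorem EO_U_add (l : ℕ) (f g : PowerSeries ℚ) : EO_U l (f + g) = EO_U l f + EO_U l g := by
  ext n
  simp [EO_U]

theorem EO_U_zero (l : ℕ) : EO_U l 0 = 0 := by
  ext n
  simp [EO_U]

theorem EO_U_sum {ι : Type} (l : ℕ) (s : Finset ι) (f : ι → PowerSeries ℚ) :
    EO_U l (∑ i ∈ s, f i) = ∑ i ∈ s, EO_U l (f i) := by
  classical
  induction s using Finset.induction_on with
  | empty => simp [EO_U_zero]
  | insert a s ha ih => rw [Finset.sum_insert ha, Finset.sum_insert ha, EO_U_add, ih]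

/-- The key identity. -/
theorem EO_key (l : ℕ) (hl : l < 2) (f g : PowerSeries ℚ) :
    EO_U l (f * sq2 g) = EO_U l f * g := by
  ext n
  rw [EO_U, PowerSeries.coeff_mk, PowerSeries.coeff_mul, PowerSeries.coeff_mul]
  have h1 : ∑ p ∈ antidiagonal (2 * n + l), PowerSeries.coeff p.1 f * PowerSeries.coeff p.2 (sq2 g)
      = ∑ p ∈ (antidiagonal (2 * n + l)).filter (fun p => p.2 % 2 = 0),
        PowerSeries.coeff p.1 f * PowerSeries.coeff (p.2 / 2) g := by
    rw [Finset.sum_filter]
    apply Finset.sum_congr rfl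
    intro p _
    rw [sq2, PowerSeries.coeff_mk]
    split_ifs with h
    · rfl
    · simp
  rw [h1]
  symm
  refine Finset.sum_bij' (fun q _ => (2 * q.1 + l, 2 * q.2))
    (fun p _ => ((p.1 - l) / 2, p.2 / 2)) ?_ ?_ ?_ ?_ ?_
  · intro q hq
    rw [Finset.HasAntidiagonal.mem_antidiagonal] at hq
    rw [Finset.mem_filter, Finset.HasAntidiagonal.mem_antidiagonal]
    simp only
    omega
  · intro p hp
    rw [Finset.mem_filter, Finset.HasAntidiagonal.mem_antidiagonal] at hp
    rw [Finset.HasAntidiagonal.mem_antidiagonal]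
    simp only
    omega
  · intro q hq
    apply Prod.ext
    · simp only
      omega
    · simp only
      omega
  · intro p hp
    rw [Finset.mem_filter, Finset.HasAntidiagonal.mem_antidiagonal] at hp
    apply Prod.ext
    · simp only
      omega
    · simp only
      omega
  · intro q hq
    simp only
    rw [EO_U, PowerSeries.coeff_mk]
    have : 2 * q.2 / 2 = q.2 := by omega
    rw [this]

theorem EO_key_pow (l : ℕ) (hl : l < 2) (f g : PowerSeries ℚ) (j : ℕ) :
    EO_U l (f * sq2 g ^ j) = EO_U l f * g ^ j := by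
  induction j with
  | zero => simp
  | succ j ih => rw [pow_succ, ← mul_assoc, EO_key l hl, ih, pow_succ, mul_assoc]

/-- The two polynomials. -/
noncomputable def EO_P (l : ℕ) (Q : Polynomial (Polynomial ℚ)) : Polynomial (Polynomial ℚ) :=
  ∑ j ∈ range (Q.natDegree + 1), Polynomial.monomial j (EO_sec l (Q.coeff j))

theorem EO_P_coeff (l : ℕ) (Q : Polynomial (Polynomial ℚ)) (j : ℕ) (hj : j ≤ Q.natDegree) :
    (EO_P l Q).coeff j = EO_sec l (Q.coeff j) := by
  unfold EO_P
  rw [Polynomial.finsetSum_coeff]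
  simp only [Polynomial.coeff_monomial]
  rw [Finset.sum_ite_eq' (range (Q.natDegree + 1)) j, if_pos (Finset.mem_range.mpr (by omega))]

theorem EO_ev (l : ℕ) (hl : l < 2) (Q : Polynomial (Polynomial ℚ)) (g : PowerSeries ℚ) :
    ev (EO_P l Q) g = EO_U l (ev Q (sq2 g)) := by
  unfold ev
  rw [Polynomial.eval₂_eq_sum_range (p := Q), EO_U_sum, EO_P, Polynomial.eval₂_finsetSum]
  apply Finset.sum_congr rfl
  intro j _
  rw [Polynomial.eval₂_monomial, EO_key_pow l hl]
  simp only [Polynomial.coeToPowerSeries.ringHom_apply]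
  rw [EO_U_coe]

/-- Row EO. -/
theorem EO : EO_stmt := by
  intro Q g hQ h0
  have hlead : Q.leadingCoeff ≠ 0 := Polynomial.leadingCoeff_ne_zero.mpr hQ
  obtain ⟨m, hm⟩ : ∃ m, Q.leadingCoeff.coeff m ≠ 0 := by
    by_contra hcon
    push Not at hcon
    exact hlead (Polynomial.ext fun n => by rw [hcon n, Polynomial.coeff_zero])
  refine ⟨EO_P (m % 2) Q, ?_, ?_, ?_⟩
  · intro hP
    have h1 := EO_P_coeff (m % 2) Q Q.natDegree le_rfl
    rw [hP, Polynomial.coeff_zero] at h1
    have h2 := EO_sec_coeff (m % 2) (Q.coeff Q.natDegree) (m / 2)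
    rw [← h1, Polynomial.coeff_zero] at h2
    have h3 : 2 * (m / 2) + m % 2 = m := by omega
    rw [h3] at h2
    exact hm h2.symm
  · unfold EO_P
    refine Polynomial.natDegree_sum_le_of_forall_le _ _ ?_
    intro j hj
    rw [Finset.mem_range] at hj
    exact (Polynomial.natDegree_monomial_le _).trans (by omega)
  · rw [EO_ev _ (Nat.mod_lt _ (by norm_num)), h0, EO_U_zero]

end Pool.Agent.helper35.OT
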